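import Mathlib

set_option autoImplicit false

/-!
Vanishing orders of polynomials at points, linear systems of hypersurfaces with assigned
multiple base points, general points.
-/

namespace Pool.Agent.H938R2

open MvPolynomial

/-- `F` vanishes to order at least `m` at the point `p` of affine space: every Taylor coefficient
of `F` at `p` of order less than `m` is zero. -/
def VanishesToOrder {n : ℕ} (m : ℕ) (p : Fin n → ℂ) (F : MvPolynomial (Fin n) ℂ) : Prop :=
  ∀ s : Fin n →₀ ℕ, s.degree < m →
    coeff s (aeval (fun j => (X j + C (p j) : MvPolynomial (Fin n) ℂ)) F) = 0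

/-- The vector space of forms of degree `d` in `n` variables which vanish to order at least `m i`
at the point with homogeneous coordinates `p i`, for every `i`. -/
noncomputable def forms (n d : ℕ) {k : ℕ} (m : Fin k → ℕ) (p : Fin k → Fin n → ℂ) :
    Submodule ℂ (MvPolynomial (Fin n) ℂ) where
  carrier := {F | F.IsHomogeneous d ∧ ∀ i, VanishesToOrder (m i) (p i) F}
  add_mem' := by
    rintro F G ⟨hF, hF'⟩ ⟨hG, hG'⟩
    refine ⟨hF.add hG, fun i s hs => ?_⟩
    rw [map_add, coeff_add, hF' i s hs, hG' i s hs, add_zero]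
  zero_mem' := ⟨isHomogeneous_zero _ _ _, fun i s _ => by simp⟩
  smul_mem' := by
    rintro c F ⟨hF, hF'⟩
    refine ⟨?_, fun i s hs => ?_⟩
    · rw [smul_eq_C_mul]
      simpa using (isHomogeneous_C (Fin n) c).mul hF
    · rw [map_smul, coeff_smul, hF' i s hs, smul_zero]

/-- A property of `k`-tuples of points of projective space of dimension `n - 1` (given by
homogeneous coordinates) holds for general points: it holds for all tuples outside the zero set of
some nonzero polynomial in the coordinates. -/
def ForGeneral (n k : ℕ) (P : (Fin k → Fin n → ℂ) → Prop) : Prop :=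
  ∃ D : MvPolynomial (Fin k × Fin n) ℂ, D ≠ 0 ∧
    ∀ p : Fin k → Fin n → ℂ, eval (fun ij => p ij.1 ij.2) D ≠ 0 → P p

theorem mem_forms {n d k : ℕ} {m : Fin k → ℕ} {p : Fin k → Fin n → ℂ}
    {F : MvPolynomial (Fin n) ℂ} :
    F ∈ forms n d m p ↔ F.IsHomogeneous d ∧ ∀ i, VanishesToOrder (m i) (p i) F := Iff.rfl

theorem prod_monomial_aux {n : ℕ} {ι : Type*} (t : Finset ι) (f : ι → Fin n →₀ ℕ) (a : ι → ℂ) :
    (∏ j ∈ t, monomial (f j) (a j) : MvPolynomial (Fin n) ℂ) =
      monomial (∑ j ∈ t, f j) (∏ j ∈ t, a j) := by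
  classical
  induction t using Finset.induction_on with
  | empty => simp
  | insert i t hi ih =>
    rw [Finset.prod_insert hi, Finset.prod_insert hi, Finset.sum_insert hi, ih, monomial_mul]

/-- The Taylor coefficients of a monomial. -/
theorem coeff_taylor_monomial {n : ℕ} (p : Fin n → ℂ) (β s : Fin n →₀ ℕ) (c : ℂ) :
    coeff s (aeval (fun j => (X j + C (p j) : MvPolynomial (Fin n) ℂ)) (monomial β c)) =
      c * ∏ j, ((β j).choose (s j) : ℂ) * p j ^ (β j - s j) := by
  classical
  rw [aeval_monomial, Finsupp.prod_fintype _ _ (fun i => pow_zero _)]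
  have h1 : ∀ j : Fin n, (X j + C (p j) : MvPolynomial (Fin n) ℂ) ^ (β j) =
      ∑ k ∈ Finset.range (β j + 1),
        monomial (Finsupp.single j k) (((β j).choose k : ℂ) * p j ^ (β j - k)) := by
    intro j
    rw [add_pow]
    refine Finset.sum_congr rfl fun k _ => ?_
    rw [X_pow_eq_monomial, ← C_pow]
    rw [show ((β j).choose k : MvPolynomial (Fin n) ℂ) = C ((β j).choose k : ℂ) by simp]
    rw [mul_assoc, ← C_mul, mul_comm (monomial _ _), C_mul_monomial]
    congr 1
    ring
  simp only [h1]
  rw [Finset.prod_univ_sum]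
  rw [Algebra.algebraMap_eq_smul_one, smul_mul_assoc, one_mul, coeff_smul, smul_eq_mul]
  congr 1
  rw [coeff_sum]
  have h2 : ∀ x : Fin n → ℕ, (∏ j, monomial (Finsupp.single j (x j))
      (((β j).choose (x j) : ℂ) * p j ^ (β j - x j)) : MvPolynomial (Fin n) ℂ) =
      monomial (Finsupp.equivFunOnFinite.symm x)
        (∏ j, ((β j).choose (x j) : ℂ) * p j ^ (β j - x j)) := by
    intro x
    rw [prod_monomial_aux]
    have : (∑ j, Finsupp.single j (x j) : Fin n →₀ ℕ) = Finsupp.equivFunOnFinite.symm x := by
      ext i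
      simp [Finsupp.single_apply]
    rw [this]
  simp only [h2, coeff_monomial]
  by_cases hs : ∀ j, s j ≤ β j
  · rw [Finset.sum_eq_single (fun j => s j)]
    · rw [if_pos]
      ext i; simp
    · intro x _ hx
      rw [if_neg]
      intro h
      apply hx
      funext i
      rw [← h]; simp
    · intro h
      exfalso
      apply h
      rw [Fintype.mem_piFinset]
      intro j
      rw [Finset.mem_range]
      have := hs j
      omega
  · push Not at hs
    obtain ⟨j, hj⟩ := hs
    rw [Finset.sum_eq_zero]
    · symm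
      apply Finset.prod_eq_zero (Finset.mem_univ j)
      rw [Nat.choose_eq_zero_of_lt hj]
      simp
    · intro x hx
      rw [if_neg]
      rintro rfl
      rw [Fintype.mem_piFinset] at hx
      have := hx j
      rw [Finset.mem_range] at this
      simp at hj
      omega

/-- The Taylor coefficients of a polynomial. -/
theorem coeff_taylor {n : ℕ} (p : Fin n → ℂ) (s : Fin n →₀ ℕ) (F : MvPolynomial (Fin n) ℂ) :
    coeff s (aeval (fun j => (X j + C (p j) : MvPolynomial (Fin n) ℂ)) F) =
      ∑ β ∈ F.support, coeff β F * ∏ j, ((β j).choose (s j) : ℂ) * p j ^ (β j - s j) := by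
  conv_lhs => rw [F.as_sum]
  rw [map_sum, coeff_sum]
  exact Finset.sum_congr rfl fun β _ => coeff_taylor_monomial p β s _

/-- Same, with the sum over any finite set of exponents containing the support. -/
theorem coeff_taylor' {n : ℕ} (p : Fin n → ℂ) (s : Fin n →₀ ℕ) (F : MvPolynomial (Fin n) ℂ)
    (T : Finset (Fin n →₀ ℕ)) (hT : F.support ⊆ T) :
    coeff s (aeval (fun j => (X j + C (p j) : MvPolynomial (Fin n) ℂ)) F) =
      ∑ β ∈ T, coeff β F * ∏ j, ((β j).choose (s j) : ℂ) * p j ^ (β j - s j) := by
  rw [coeff_taylor]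
  refine Finset.sum_subset hT fun β _ hβ => ?_
  rw [notMem_support_iff.mp hβ, zero_mul]

theorem isHomogeneous_iff {n d : ℕ} (F : MvPolynomial (Fin n) ℂ) :
    F.IsHomogeneous d ↔ ∀ β ∈ F.support, β.degree = d := by
  have key : ∀ β : Fin n →₀ ℕ, Finsupp.weight (1 : Fin n → ℕ) β = β.degree := by
    intro β
    rw [Finsupp.degree_eq_weight_one]
    rfl
  constructor
  · intro h β hβ
    rw [← key]
    exact h (mem_support_iff.mp hβ)
  · intro h β hβ
    rw [key]
    exact h β (mem_support_iff.mpr hβ)

/-- Linear substitution: `(subst A F)(x) = F (A x)`. -/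
noncomputable def subst {n : ℕ} (A : Matrix (Fin n) (Fin n) ℂ) :
    MvPolynomial (Fin n) ℂ →ₐ[ℂ] MvPolynomial (Fin n) ℂ :=
  aeval (fun i => ∑ j, C (A i j) * X j)

theorem subst_subst {n : ℕ} (A B : Matrix (Fin n) (Fin n) ℂ) (F : MvPolynomial (Fin n) ℂ) :
    subst B (subst A F) = subst (A * B) F := by
  have : (subst B).comp (subst A) = subst (A * B) := by
    apply MvPolynomial.algHom_ext
    intro i
    simp only [AlgHom.comp_apply, subst, aeval_X, map_sum, map_mul, Matrix.mul_apply]
    simp only [algHom_C, algebraMap_eq, Finset.mul_sum, Finset.sum_mul]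
    rw [Finset.sum_comm]
    refine Finset.sum_congr rfl fun j _ => Finset.sum_congr rfl fun k _ => ?_
    ring
  exact DFunLike.congr_fun this F

theorem subst_one {n : ℕ} (F : MvPolynomial (Fin n) ℂ) :
    subst (1 : Matrix (Fin n) (Fin n) ℂ) F = F := by
  have : subst (1 : Matrix (Fin n) (Fin n) ℂ) = AlgHom.id ℂ _ := by
    apply MvPolynomial.algHom_ext
    intro i
    simp only [subst, aeval_X, AlgHom.id_apply]
    rw [Finset.sum_eq_single i]
    · simp
    · intro j _ hj
      rw [Matrix.one_apply_ne (Ne.symm hj)]; simp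
    · simp
  rw [this]; rfl

theorem subst_isHomogeneous {n d : ℕ} (A : Matrix (Fin n) (Fin n) ℂ) {F : MvPolynomial (Fin n) ℂ}
    (hF : F.IsHomogeneous d) : (subst A F).IsHomogeneous d := by
  have : (subst A F).IsHomogeneous (1 * d) := by
    apply hF.aeval
    intro i
    apply IsHomogeneous.sum
    intro j _
    simpa using (isHomogeneous_C (Fin n) (A i j)).mul (isHomogeneous_X ℂ j)
  simpa using this

/-- A linear substitution does not create terms of lower degree. -/
theorem coeff_subst_eq_zero {n m : ℕ} (A : Matrix (Fin n) (Fin n) ℂ) (G : MvPolynomial (Fin n) ℂ)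
    (hG : ∀ s : Fin n →₀ ℕ, s.degree < m → coeff s G = 0) (s : Fin n →₀ ℕ) (hs : s.degree < m) :
    coeff s (subst A G) = 0 := by
  rw [G.as_sum, map_sum, coeff_sum]
  refine Finset.sum_eq_zero fun β hβ => ?_
  have hm : m ≤ β.degree := by
    by_contra h
    exact (mem_support_iff.mp hβ) (hG β (by omega))
  have h1 : (subst A (monomial β (coeff β G))).IsHomogeneous β.degree :=
    subst_isHomogeneous A (isHomogeneous_monomial _ rfl)
  by_contra hne
  have := (isHomogeneous_iff _).mp h1 s (mem_support_iff.mpr hne)
  omega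

theorem vanishesToOrder_subst {n m : ℕ} (A : Matrix (Fin n) (Fin n) ℂ) (p : Fin n → ℂ)
    {F : MvPolynomial (Fin n) ℂ} (hF : VanishesToOrder m (A.mulVec p) F) :
    VanishesToOrder m p (subst A F) := by
  intro s hs
  have : aeval (fun j => (X j + C (p j) : MvPolynomial (Fin n) ℂ)) (subst A F) =
      subst A (aeval (fun j => (X j + C (A.mulVec p j) : MvPolynomial (Fin n) ℂ)) F) := by
    have h2 : (aeval (fun j => (X j + C (p j) : MvPolynomial (Fin n) ℂ))).comp (subst A) =
        (subst A).comp (aeval (fun j => (X j + C (A.mulVec p j) : MvPolynomial (Fin n) ℂ))) := by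
      apply MvPolynomial.algHom_ext
      intro i
      simp only [AlgHom.comp_apply, subst, aeval_X, map_sum, map_mul, map_add, algHom_C,
        algebraMap_eq, Matrix.mulVec, dotProduct, mul_add, Finset.sum_add_distrib]
    exact DFunLike.congr_fun h2 F
  rw [this]
  exact coeff_subst_eq_zero A _ hF s hs

theorem subst_mem_forms {n d k : ℕ} {m : Fin k → ℕ} {p q : Fin k → Fin n → ℂ}
    {A : Matrix (Fin n) (Fin n) ℂ} (hA : ∀ i, A.mulVec (q i) = p i)
    {F : MvPolynomial (Fin n) ℂ} (hF : F ∈ forms n d m p) : subst A F ∈ forms n d m q := by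
  refine ⟨subst_isHomogeneous A hF.1, fun i => vanishesToOrder_subst A (q i) ?_⟩
  rw [hA i]
  exact hF.2 i

/-- A linear change of coordinates does not change the dimension of the linear system. -/
noncomputable def formsEquiv {n d k : ℕ} {m : Fin k → ℕ} {p q : Fin k → Fin n → ℂ}
    (A B : Matrix (Fin n) (Fin n) ℂ) (hAB : A * B = 1) (hBA : B * A = 1)
    (hA : ∀ i, A.mulVec (q i) = p i) : forms n d m p ≃ₗ[ℂ] forms n d m q where
  toFun F := ⟨subst A F.1, subst_mem_forms hA F.2⟩
  invFun F := ⟨subst B F.1, subst_mem_forms (q := p) (p := q)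
    (fun i => by rw [← hA i, Matrix.mulVec_mulVec, hBA, Matrix.one_mulVec]) F.2⟩
  map_add' F G := by ext1; simp
  map_smul' c F := by ext1; simp
  left_inv F := by ext1; simp [subst_subst, hAB, subst_one]
  right_inv F := by ext1; simp [subst_subst, hBA, subst_one]

/-- For a form, vanishing to order `m` at a coordinate point is a condition on the exponents. -/
theorem vanishesToOrder_coord {n d m : ℕ} (i : Fin n) {F : MvPolynomial (Fin n) ℂ}
    (hF : F.IsHomogeneous d) :
    VanishesToOrder m (Pi.single i 1) F ↔ ∀ β ∈ F.support, β i + m ≤ d := by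
  classical
  rw [isHomogeneous_iff] at hF
  constructor
  · intro h β hβ
    by_contra hlt
    push Not at hlt
    -- test with the exponent obtained from `β` by erasing the `i`-th entry
    have hdeg : (β.erase i).degree + β i = d := by
      rw [← hF β hβ, Finsupp.degree_eq_sum, Finsupp.degree_eq_sum,
        ← Finset.add_sum_erase Finset.univ _ (Finset.mem_univ i),
        ← Finset.add_sum_erase Finset.univ (fun j => β j) (Finset.mem_univ i)]
      rw [Finsupp.erase_same, zero_add, add_comm]
      congr 1
      refine Finset.sum_congr rfl fun j hj => ?_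
      rw [Finsupp.erase_ne (Finset.ne_of_mem_erase hj)]
    have h0 := h (β.erase i) (by omega)
    rw [coeff_taylor, Finset.sum_eq_single β] at h0
    · rw [mul_eq_zero] at h0
      rcases h0 with h0 | h0
      · exact (mem_support_iff.mp hβ) h0
      · rw [Finset.prod_eq_zero_iff] at h0
        obtain ⟨j, _, hj⟩ := h0
        by_cases hji : j = i
        · subst hji
          simp at hj
        · rw [Finsupp.erase_ne hji] at hj
          simp at hj
    · intro γ hγ hγβ
      have : ∃ j, j ≠ i ∧ γ j ≠ β j := by
        by_contra hcon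
        push Not at hcon
        apply hγβ
        have h1 : γ i = β i := by
          have e1 := hF γ hγ
          have e2 := hF β hβ
          rw [Finsupp.degree_eq_sum, ← Finset.add_sum_erase Finset.univ _ (Finset.mem_univ i)]
            at e1 e2
          have e3 : ∑ x ∈ Finset.univ.erase i, γ x = ∑ x ∈ Finset.univ.erase i, β x :=
            Finset.sum_congr rfl fun j hj => hcon j (Finset.ne_of_mem_erase hj)
          omega
        ext j
        by_cases hji : j = i
        · rw [hji, h1]
        · exact hcon j hji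
      obtain ⟨j, hji, hj⟩ := this
      rw [Finset.prod_eq_zero (Finset.mem_univ j), mul_zero]
      rw [Finsupp.erase_ne hji, Pi.single_eq_of_ne hji]
      rcases lt_or_gt_of_ne hj with h1 | h1
      · rw [Nat.choose_eq_zero_of_lt h1]; simp
      · rw [zero_pow (by omega), mul_zero]
    · intro h1
      exact absurd hβ h1
  · intro h s hs
    rw [coeff_taylor]
    refine Finset.sum_eq_zero fun β hβ => ?_
    have h1 := h β hβ
    have h2 := hF β hβ
    have : ∃ j, j ≠ i ∧ s j ≠ β j := by
      by_contra hcon
      push Not at hcon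
      rw [Finsupp.degree_eq_sum, ← Finset.add_sum_erase Finset.univ _ (Finset.mem_univ i)]
        at h2 hs
      have e3 : ∑ x ∈ Finset.univ.erase i, s x = ∑ x ∈ Finset.univ.erase i, β x :=
        Finset.sum_congr rfl fun j hj => hcon j (Finset.ne_of_mem_erase hj)
      omega
    obtain ⟨j, hji, hj⟩ := this
    rw [Finset.prod_eq_zero (Finset.mem_univ j), mul_zero]
    rw [Pi.single_eq_of_ne hji]
    rcases lt_or_gt_of_ne hj with h1 | h1
    · rw [zero_pow (by omega), mul_zero]
    · rw [Nat.choose_eq_zero_of_lt h1]; simp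

end Pool.Agent.H938R2
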