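import Mathlib
import Pool.Agent.H15.G.R_seed8.H938R2.Fat

set_option autoImplicit false

/-!
Moving points to coordinate points; spaces of polynomials given by conditions on the exponents;
Bezout's theorem for a line.
-/

namespace Pool.Agent.H938R2

open MvPolynomial

theorem exists_extension {n : ℕ} : ∀ (j k : ℕ), k + j = n → ∀ (hk : k ≤ n) (p : Fin k → Fin n → ℂ),
    LinearIndependent ℂ p →
    ∃ v : Fin n → Fin n → ℂ, LinearIndependent ℂ v ∧ ∀ i : Fin k, v (Fin.castLE hk i) = p i := by
  intro j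
  induction j with
  | zero =>
    intro k hkn hk p hp
    obtain rfl : k = n := by omega
    exact ⟨p, hp, fun i => rfl⟩
  | succ j ih =>
    intro k hkn hk p hp
    obtain ⟨x, hx⟩ := exists_linearIndependent_snoc_of_lt_finrank hp (by simp; omega)
    obtain ⟨v, hv, hv'⟩ := ih (k + 1) (by omega) (by omega) (Fin.snoc p x) hx
    refine ⟨v, hv, fun i => ?_⟩
    have := hv' i.castSucc
    rw [Fin.snoc_castSucc] at this
    exact this

/-- Linearly independent points can be moved to coordinate points. -/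
theorem exists_coordinates {n k : ℕ} (hk : k ≤ n) (p : Fin k → Fin n → ℂ)
    (hp : LinearIndependent ℂ p) :
    ∃ A B : Matrix (Fin n) (Fin n) ℂ, A * B = 1 ∧ B * A = 1 ∧
      ∀ i : Fin k, A.mulVec (Pi.single (Fin.castLE hk i) 1) = p i := by
  obtain ⟨v, hv, hv'⟩ := exists_extension (n - k) k (by omega) hk p hp
  let M : Matrix (Fin n) (Fin n) ℂ := Matrix.of v
  have hM : IsUnit M := Matrix.linearIndependent_rows_iff_isUnit.mp hv
  have hMt : IsUnit M.transpose := (Matrix.isUnit_transpose M).mpr hM
  refine ⟨M.transpose, M.transpose⁻¹, ?_, ?_, fun i => ?_⟩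
  · exact Matrix.mul_nonsing_inv _ ((Matrix.isUnit_iff_isUnit_det _).mp hMt)
  · exact Matrix.nonsing_inv_mul _ ((Matrix.isUnit_iff_isUnit_det _).mp hMt)
  · rw [Matrix.mulVec_single_one, ← hv' i]
    rfl

theorem finrank_restrictSupport {n : ℕ} (T : Set (Fin n →₀ ℕ)) :
    Module.finrank ℂ (restrictSupport ℂ T) = Nat.card T :=
  Module.finrank_eq_nat_card_basis (basisRestrictSupport ℂ T)

/-- `X i` divides a polynomial all of whose exponents involve `X i`. -/
theorem X_dvd_of_support {n : ℕ} (i : Fin n) (F : MvPolynomial (Fin n) ℂ)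
    (h : ∀ β ∈ F.support, β i ≠ 0) : X i ∣ F := by
  rw [F.as_sum]
  refine Finset.dvd_sum fun β hβ => ?_
  rw [X_dvd_monomial]
  exact Or.inr (h β hβ)

/-- Bezout's theorem for a line: a plane curve of degree `d < a + b` with points of multiplicity
at least `a` and `b` contains the line joining them. -/
theorem exists_line_dvd {p : Fin 2 → Fin 3 → ℂ} (hp : LinearIndependent ℂ p) :
    ∃ L : MvPolynomial (Fin 3) ℂ, L.IsHomogeneous 1 ∧ L ≠ 0 ∧ eval (p 0) L = 0 ∧ eval (p 1) L = 0 ∧
      ∀ (d a b : ℕ) (F : MvPolynomial (Fin 3) ℂ), d < a + b → F.IsHomogeneous d →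
        VanishesToOrder a (p 0) F → VanishesToOrder b (p 1) F → L ∣ F := by
  obtain ⟨A, B, hAB, hBA, hA⟩ := exists_coordinates (by norm_num : 2 ≤ 3) p hp
  have hA0 : A.mulVec (Pi.single 0 1) = p 0 := hA 0
  have hA1 : A.mulVec (Pi.single 1 1) = p 1 := hA 1
  have hX : subst A (subst B (X 2)) = X 2 := by rw [subst_subst, hBA, subst_one]
  have hev : ∀ (i : Fin 3), eval (A.mulVec (Pi.single i 1)) (subst B (X 2)) =
      if i = 2 then 1 else 0 := by
    intro i
    have h1 : eval (A.mulVec (Pi.single i 1)) (subst B (X 2)) = (B * A) 2 i := by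
      simp only [subst, aeval_X, map_sum, map_mul, eval_C, eval_X, Matrix.mul_apply,
        Matrix.mulVec_single_one, Matrix.col_apply]
    rw [h1, hBA, Matrix.one_apply]
    simp [eq_comm]
  refine ⟨subst B (X 2), subst_isHomogeneous B (isHomogeneous_X ℂ 2), ?_, ?_, ?_, ?_⟩
  · intro h
    rw [h, map_zero] at hX
    exact X_ne_zero (R := ℂ) (2 : Fin 3) hX.symm
  · rw [← hA0, hev]; simp
  · rw [← hA1, hev]; simp
  · intro d a b F hdab hF h0 h1
    have hF' : (subst A F).IsHomogeneous d := subst_isHomogeneous A hF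
    have h0' : VanishesToOrder a (Pi.single 0 1) (subst A F) := by
      apply vanishesToOrder_subst; rw [hA0]; exact h0
    have h1' : VanishesToOrder b (Pi.single 1 1) (subst A F) := by
      apply vanishesToOrder_subst; rw [hA1]; exact h1
    rw [vanishesToOrder_coord 0 hF'] at h0'
    rw [vanishesToOrder_coord 1 hF'] at h1'
    have hdvd : X 2 ∣ subst A F := by
      apply X_dvd_of_support
      intro β hβ
      have e0 := h0' β hβ
      have e1 := h1' β hβ
      have e2 := (isHomogeneous_iff _).mp hF' β hβ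
      rw [Finsupp.degree_eq_sum, Fin.sum_univ_three] at e2
      omega
    obtain ⟨G, hG⟩ := hdvd
    refine ⟨subst B G, ?_⟩
    rw [← map_mul, ← hG, subst_subst, hAB, subst_one]

/-- A form of degree at least two which is divisible by a linear form is not irreducible. -/
theorem not_irreducible_of_line_dvd {d : ℕ} (hd : 2 ≤ d) {n : ℕ} {L F : MvPolynomial (Fin n) ℂ}
    (hL : L.IsHomogeneous 1) (hL0 : L ≠ 0) (hF : F.IsHomogeneous d) (hF0 : F ≠ 0) (h : L ∣ F) :
    ¬ Irreducible F := by
  intro hirr
  obtain ⟨G, rfl⟩ := h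
  have hG0 : G ≠ 0 := right_ne_zero_of_mul hF0
  have h1 : (L * G).totalDegree = L.totalDegree + G.totalDegree :=
    totalDegree_mul_of_isDomain hL0 hG0
  rw [hF.totalDegree hF0, hL.totalDegree hL0] at h1
  rcases hirr.isUnit_or_isUnit rfl with hu | hu
  · have := (MvPolynomial.isUnit_iff_totalDegree_of_isReduced.mp hu).2
    rw [hL.totalDegree hL0] at this
    omega
  · have := (MvPolynomial.isUnit_iff_totalDegree_of_isReduced.mp hu).2
    omega

end Pool.Agent.H938R2
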