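import Mathlib
import Pool.Agent.H15.G.R_seed8.H938R2.Fat
import Pool.Agent.H15.G.R_seed8.H938R2.Coord

set_option autoImplicit false

/-!
The lower bound for the dimension of linear systems.
-/

namespace Pool.Agent.H938R2

open MvPolynomial

theorem natCard_expo (r d : ℕ) :
    Nat.card {β : Fin (r + 1) →₀ ℕ | β.degree = d} = (d + r).choose r := by
  have h1 : {β : Fin (r + 1) →₀ ℕ | β.degree = d} =
      ((Finset.univ : Finset (Fin (r + 1))).finsuppAntidiag d : Set (Fin (r + 1) →₀ ℕ)) := by
    ext β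
    rw [Finset.mem_coe, Finset.mem_finsuppAntidiag, Set.mem_ofPred_eq, Finsupp.degree_eq_sum]
    simp
  rw [h1, Nat.card_coe_set_eq, Set.ncard_coe_finset, Finset.card_finsuppAntidiag_nat_eq_choose,
    Finset.card_univ, Fintype.card_fin]
  have h2 : r + 1 + d - 1 = d + r := by omega
  rw [h2, Nat.choose_symm_add]

theorem finite_expo (n d : ℕ) : {β : Fin n →₀ ℕ | β.degree = d}.Finite := by
  have h1 : {β : Fin n →₀ ℕ | β.degree = d} =
      ((Finset.univ : Finset (Fin n)).finsuppAntidiag d : Set (Fin n →₀ ℕ)) := by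
    ext β
    rw [Finset.mem_coe, Finset.mem_finsuppAntidiag, Set.mem_ofPred_eq, Finsupp.degree_eq_sum]
    simp
  rw [h1]
  exact Finset.finite_toSet _

theorem ncard_killed (r d m : ℕ) :
    {β : Fin (r + 1) →₀ ℕ | β.degree = d ∧ d < β 0 + m}.ncard ≤ (m + r - 1).choose r := by
  rcases Nat.eq_zero_or_pos m with rfl | hm
  · have : {β : Fin (r + 1) →₀ ℕ | β.degree = d ∧ d < β 0 + 0} = ∅ := by
      ext β
      simp only [add_zero, Set.mem_ofPred_eq, Set.mem_empty_iff_false, iff_false, not_and, not_lt]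
      rintro rfl
      exact Finsupp.le_degree 0 β
    rw [this, Set.ncard_empty]
    exact Nat.zero_le _
  · have h2 : m + r - 1 = (m - 1) + r := by omega
    rw [h2, ← natCard_expo r (m - 1), Nat.card_coe_set_eq]
    refine Set.ncard_le_ncard_of_injOn (fun β => β.update 0 (β 0 + m - 1 - d)) ?_ ?_
      (finite_expo _ _)
    · rintro β ⟨h3, h4⟩
      rw [Finsupp.degree_eq_sum, Fin.sum_univ_succ] at h3
      rw [Set.mem_ofPred_eq, Finsupp.degree_eq_sum, Fin.sum_univ_succ]
      simp only [Finsupp.coe_update, Function.update_self, ne_eq, Fin.succ_ne_zero,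
        not_false_eq_true, Function.update_of_ne]
      omega
    · rintro β ⟨h3, h4⟩ γ ⟨h5, h6⟩ h
      have h7 : ∀ j : Fin r, β j.succ = γ j.succ := by
        intro j
        have := DFunLike.congr_fun h j.succ
        simpa using this
      rw [Finsupp.degree_eq_sum, Fin.sum_univ_succ] at h3 h5
      have h8 : ∑ j : Fin r, β j.succ = ∑ j : Fin r, γ j.succ :=
        Finset.sum_congr rfl fun j _ => h7 j
      ext j
      refine Fin.cases ?_ (fun j => h7 j) j
      omega

theorem forms_zero_points (n d : ℕ) (m : Fin 0 → ℕ) (p : Fin 0 → Fin n → ℂ) :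
    forms n d m p = restrictSupport ℂ {β : Fin n →₀ ℕ | β.degree = d} := by
  ext F
  rw [mem_restrictSupport_iff, mem_forms]
  constructor
  · rintro ⟨hF, -⟩ β hβ
    exact (isHomogeneous_iff F).mp hF β hβ
  · intro h
    exact ⟨(isHomogeneous_iff F).mpr fun β hβ => h hβ, fun i => i.elim0⟩

/-- Forms of degree `d` vanishing to order at least `m` at one point. -/
noncomputable def onePoint (n d m : ℕ) (q : Fin n → ℂ) : Submodule ℂ (MvPolynomial (Fin n) ℂ) :=
  forms n d (k := 1) (fun _ => m) (fun _ => q)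

/-- All forms of degree `d`. -/
noncomputable def allForms (n d : ℕ) : Submodule ℂ (MvPolynomial (Fin n) ℂ) :=
  restrictSupport ℂ {β : Fin n →₀ ℕ | β.degree = d}

theorem mem_allForms {n d : ℕ} {F : MvPolynomial (Fin n) ℂ} :
    F ∈ allForms n d ↔ F.IsHomogeneous d := by
  rw [allForms, mem_restrictSupport_iff, isHomogeneous_iff]
  rfl

theorem mem_onePoint {n d m : ℕ} {q : Fin n → ℂ} {F : MvPolynomial (Fin n) ℂ} :
    F ∈ onePoint n d m q ↔ F.IsHomogeneous d ∧ VanishesToOrder m q F := by
  rw [onePoint, mem_forms]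
  simp

instance finite_restrictSupport {n : ℕ} (T : Set (Fin n →₀ ℕ)) [Finite T] :
    Module.Finite ℂ (restrictSupport ℂ T) :=
  Module.Finite.of_basis (basisRestrictSupport ℂ T)

instance finite_allForms (n d : ℕ) : Module.Finite ℂ (allForms n d) := by
  have : Finite {β : Fin n →₀ ℕ | β.degree = d} := finite_expo n d
  exact finite_restrictSupport _

theorem forms_le_allForms {n d k : ℕ} (m : Fin k → ℕ) (p : Fin k → Fin n → ℂ) :
    forms n d m p ≤ allForms n d := fun _ hF => mem_allForms.mpr hF.1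

instance finite_forms {n d k : ℕ} (m : Fin k → ℕ) (p : Fin k → Fin n → ℂ) :
    Module.Finite ℂ (forms n d m p) :=
  Submodule.finiteDimensional_of_le (forms_le_allForms m p)

theorem finrank_allForms (r d : ℕ) :
    Module.finrank ℂ (allForms (r + 1) d) = (d + r).choose r := by
  rw [allForms, finrank_restrictSupport, natCard_expo]

/-- A point of multiplicity `m` imposes at most `(m + r - 1).choose r` conditions. -/
theorem finrank_onePoint (r d m : ℕ) (q : Fin (r + 1) → ℂ) (hq : q ≠ 0) :
    (d + r).choose r ≤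
      Module.finrank ℂ (onePoint (r + 1) d m q) + (m + r - 1).choose r := by
  have hLI : LinearIndependent ℂ (fun _ : Fin 1 => q) :=
    linearIndependent_unique_iff.mpr hq
  obtain ⟨A, B, hAB, hBA, hA⟩ := exists_coordinates (by omega : 1 ≤ r + 1) _ hLI
  have hA0 : A.mulVec (Pi.single 0 1) = q := hA 0
  have e := (formsEquiv (n := r + 1) (d := d) (m := fun _ : Fin 1 => m)
    (p := fun _ => q) (q := fun _ => Pi.single 0 1) A B hAB hBA (fun _ => hA0)).finrank_eq
  rw [onePoint, e]
  have h1 : forms (r + 1) d (fun _ : Fin 1 => m) (fun _ => Pi.single 0 1) =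
      restrictSupport ℂ {β : Fin (r + 1) →₀ ℕ | β.degree = d ∧ β 0 + m ≤ d} := by
    ext F
    rw [mem_restrictSupport_iff, mem_forms]
    constructor
    · rintro ⟨hF, h0⟩ β hβ
      exact ⟨(isHomogeneous_iff F).mp hF β hβ, (vanishesToOrder_coord 0 hF).mp (h0 0) β hβ⟩
    · intro h
      have hF : F.IsHomogeneous d := (isHomogeneous_iff F).mpr fun β hβ => (h hβ).1
      exact ⟨hF, fun _ => (vanishesToOrder_coord 0 hF).mpr fun β hβ => (h hβ).2⟩
  rw [h1, finrank_restrictSupport, Nat.card_coe_set_eq, ← natCard_expo, Nat.card_coe_set_eq]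
  have h2 : {β : Fin (r + 1) →₀ ℕ | β.degree = d} =
      {β : Fin (r + 1) →₀ ℕ | β.degree = d ∧ β 0 + m ≤ d} ∪
      {β : Fin (r + 1) →₀ ℕ | β.degree = d ∧ d < β 0 + m} := by
    ext β
    simp only [Set.mem_ofPred_eq, Set.mem_union]
    omega
  rw [h2]
  refine (Set.ncard_union_le _ _).trans ?_
  exact Nat.add_le_add_left (ncard_killed r d m) _

/-- The dimension of the linear system is at least the virtual dimension. -/
theorem finrank_forms_ge (r d : ℕ) {k : ℕ} (m : Fin k → ℕ) (p : Fin k → Fin (r + 1) → ℂ)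
    (hp : ∀ i, p i ≠ 0) :
    (d + r).choose r ≤
      Module.finrank ℂ (forms (r + 1) d m p) + ∑ i, (m i + r - 1).choose r := by
  classical
  have key : ∀ s : Finset (Fin k), (d + r).choose r ≤
      Module.finrank ℂ ((allForms (r + 1) d ⊓ ⨅ i ∈ s, onePoint (r + 1) d (m i) (p i) :
        Submodule ℂ (MvPolynomial (Fin (r + 1)) ℂ))) + ∑ i ∈ s, (m i + r - 1).choose r := by
    intro s
    induction s using Finset.induction_on with
    | empty =>
      have h1 : (allForms (r + 1) d ⊓ ⨅ i ∈ (∅ : Finset (Fin k)), onePoint (r + 1) d (m i) (p i) :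
          Submodule ℂ (MvPolynomial (Fin (r + 1)) ℂ)) = allForms (r + 1) d := by
        simp
      rw [h1, finrank_allForms]
      exact Nat.le_add_right _ _
    | insert i s hi ih =>
      rw [Finset.sum_insert hi]
      set U : Submodule ℂ (MvPolynomial (Fin (r + 1)) ℂ) :=
        allForms (r + 1) d ⊓ ⨅ i ∈ s, onePoint (r + 1) d (m i) (p i) with hU
      have h1 : (allForms (r + 1) d ⊓ ⨅ j ∈ insert i s, onePoint (r + 1) d (m j) (p j) :
          Submodule ℂ (MvPolynomial (Fin (r + 1)) ℂ)) = U ⊓ onePoint (r + 1) d (m i) (p i) := by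
        rw [Finset.iInf_insert, hU]
        rw [inf_comm (onePoint (r + 1) d (m i) (p i)), inf_assoc]
      rw [h1]
      have : Module.Finite ℂ U := Submodule.finiteDimensional_of_le (inf_le_left)
      have : Module.Finite ℂ (onePoint (r + 1) d (m i) (p i)) :=
        inferInstanceAs (Module.Finite ℂ (forms _ _ _ _))
      have h2 := Submodule.finrank_sup_add_finrank_inf_eq U (onePoint (r + 1) d (m i) (p i))
      have h3 : Module.finrank ℂ (U ⊔ onePoint (r + 1) d (m i) (p i) :
          Submodule ℂ (MvPolynomial (Fin (r + 1)) ℂ)) ≤ (d + r).choose r := by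
        rw [← finrank_allForms r d]
        apply Submodule.finrank_mono
        exact sup_le inf_le_left (forms_le_allForms _ _)
      have h4 := finrank_onePoint r d (m i) (p i) (hp i)
      omega
  have h := key Finset.univ
  have h1 : (allForms (r + 1) d ⊓ ⨅ i ∈ (Finset.univ : Finset (Fin k)),
      onePoint (r + 1) d (m i) (p i) : Submodule ℂ (MvPolynomial (Fin (r + 1)) ℂ)) =
      forms (r + 1) d m p := by
    ext F
    simp only [Submodule.mem_inf, Submodule.mem_iInf, mem_allForms, mem_onePoint, mem_forms,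
      Finset.mem_univ, true_implies]
    constructor
    · rintro ⟨h1, h2⟩
      exact ⟨h1, fun i => (h2 i).2⟩
    · rintro ⟨h1, h2⟩
      exact ⟨h1, fun i => ⟨h1, h2 i⟩⟩
  rw [h1] at h
  exact h

end Pool.Agent.H938R2
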