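import Mathlib
import Pool.Agent.H15.G.R_seed8.H938R2.Fat

set_option autoImplicit false

/-!
Semicontinuity of the dimension of linear systems.
-/

namespace Pool.Agent.H938R2

open MvPolynomial

/-- A vector space of dimension at most `N` embeds in `ℂ ^ N`. -/
theorem exists_injective_of_finrank_le {V : Type*} [AddCommGroup V] [Module ℂ V]
    [FiniteDimensional ℂ V] {N : ℕ} (h : Module.finrank ℂ V ≤ N) :
    ∃ J : V →ₗ[ℂ] (Fin N → ℂ), Function.Injective J := by
  classical
  let e := (Module.finBasis ℂ V).equivFun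
  refine ⟨{ toFun := fun v i => if h : (i : ℕ) < Module.finrank ℂ V then e v ⟨i, h⟩ else 0
            map_add' := ?_, map_smul' := ?_ }, ?_⟩
  · intro v w
    funext i
    by_cases hi : (i : ℕ) < Module.finrank ℂ V <;> simp [hi]
  · intro c v
    funext i
    by_cases hi : (i : ℕ) < Module.finrank ℂ V <;> simp [hi]
  · intro v w hvw
    apply e.injective
    funext i
    have := congrFun hvw ⟨i, by omega⟩
    simpa using this

/-- The rank of a matrix of polynomials is lower semicontinuous. -/
theorem generic_finrank_ker {τ ι κ : Type*} [Fintype ι] [Fintype κ] [DecidableEq ι]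
    (A : Matrix κ ι (MvPolynomial τ ℂ)) (x0 : τ → ℂ) (N : ℕ)
    (h : Module.finrank ℂ (LinearMap.ker (A.map (eval x0)).mulVecLin) ≤ N) :
    ∃ D : MvPolynomial τ ℂ, eval x0 D ≠ 0 ∧ ∀ x, eval x D ≠ 0 →
      Module.finrank ℂ (LinearMap.ker (A.map (eval x)).mulVecLin) ≤ N := by
  classical
  -- a linear map to `ℂ ^ N` which is injective on the kernel at `x0`
  obtain ⟨B, hB⟩ : ∃ B : (ι → ℂ) →ₗ[ℂ] (Fin N → ℂ),
      ∀ v, (A.map (eval x0)).mulVec v = 0 → B v = 0 → v = 0 := by
    obtain ⟨J, hJ⟩ := exists_injective_of_finrank_le h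
    obtain ⟨B, hB⟩ := LinearMap.exists_extend J
    refine ⟨B, fun v hv hBv => ?_⟩
    have hv' : v ∈ LinearMap.ker (A.map (eval x0)).mulVecLin := by
      rw [LinearMap.mem_ker]; exact hv
    have h1 : J ⟨v, hv'⟩ = 0 := by
      rw [← hB]; exact hBv
    have h2 : (⟨v, hv'⟩ : LinearMap.ker (A.map (eval x0)).mulVecLin) = 0 := by
      apply hJ; rw [h1, map_zero]
    exact congrArg Subtype.val h2
  -- the stacked map is injective, hence has a left inverse `E`
  obtain ⟨E, hE⟩ := LinearMap.exists_leftInverse_of_injective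
    ((A.map (eval x0)).mulVecLin.prod B) (by
      rw [LinearMap.ker_eq_bot']
      intro v hv
      have h1 : (A.map (eval x0)).mulVec v = 0 := congrArg Prod.fst hv
      have h2 : B v = 0 := congrArg Prod.snd hv
      exact hB v h1 h2)
  let E1 : Matrix ι κ ℂ := LinearMap.toMatrix' (E.comp (LinearMap.inl ℂ (κ → ℂ) (Fin N → ℂ)))
  let G : Matrix ι ι ℂ := LinearMap.toMatrix' ((E.comp (LinearMap.inr ℂ (κ → ℂ) (Fin N → ℂ))).comp B)
  let M : Matrix ι ι (MvPolynomial τ ℂ) :=
    Matrix.of fun i j => ∑ k, C (E1 i k) * A k j + C (G i j)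
  have hM : ∀ x, M.map (eval x) = E1 * A.map (eval x) + G := by
    intro x
    ext i j
    simp [M, Matrix.mul_apply]
  have hMv : ∀ x v, (M.map (eval x)).mulVec v =
      E ((A.map (eval x)).mulVec v, 0) + E (0, B v) := by
    intro x v
    rw [hM, Matrix.add_mulVec, ← Matrix.mulVec_mulVec]
    congr 1
    · exact LinearMap.toMatrix'_mulVec (E.comp (LinearMap.inl ℂ (κ → ℂ) (Fin N → ℂ))) _
    · exact LinearMap.toMatrix'_mulVec ((E.comp (LinearMap.inr ℂ (κ → ℂ) (Fin N → ℂ))).comp B) _
  refine ⟨M.det, ?_, ?_⟩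
  · have : M.map (eval x0) = 1 := by
      apply Matrix.toLin'.injective
      apply LinearMap.ext
      intro v
      rw [Matrix.toLin'_apply, hMv, ← map_add, Prod.mk_add_mk, add_zero, zero_add,
        Matrix.toLin'_one]
      exact DFunLike.congr_fun hE v
    have h3 : eval x0 M.det = (M.map (eval x0)).det := RingHom.map_det _ _
    rw [h3, this, Matrix.det_one]
    exact one_ne_zero
  · intro x hx
    have h3 : eval x M.det = (M.map (eval x)).det := RingHom.map_det _ _
    rw [h3] at hx
    have hinj : ∀ v, (M.map (eval x)).mulVec v = 0 → v = 0 := by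
      intro v hv
      by_contra hne
      exact hx (Matrix.exists_mulVec_eq_zero_iff.mp ⟨v, hne, hv⟩)
    have := LinearMap.finrank_le_finrank_of_injective
      (f := B.comp (LinearMap.ker (A.map (eval x)).mulVecLin).subtype) (by
        rw [← LinearMap.ker_eq_bot, LinearMap.ker_eq_bot']
        rintro ⟨v, hv⟩ hBv
        rw [LinearMap.mem_ker] at hv
        apply Subtype.ext
        apply hinj
        rw [hMv]
        have h4 : (A.map (eval x)).mulVec v = 0 := hv
        have h5 : B v = 0 := hBv
        rw [h4, h5]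
        have h6 : ((0 : κ → ℂ), (0 : Fin N → ℂ)) = 0 := rfl
        rw [h6, map_zero, add_zero])
    simpa using this

section forms

variable (n d : ℕ) {k : ℕ} (m : Fin k → ℕ)

/-- The exponents of degree `d`. -/
abbrev Expo : Type := {β : Fin n →₀ ℕ // β ∈ Finset.finsuppAntidiag Finset.univ d}

theorem mem_expo (β : Fin n →₀ ℕ) : β ∈ Finset.finsuppAntidiag Finset.univ d ↔ β.degree = d := by
  rw [Finset.mem_finsuppAntidiag, Finsupp.degree_eq_sum]
  simp

/-- The matrix of the conditions. -/
noncomputable def condMatrix :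
    Matrix (Fin k × (Fin n → Fin (∑ i, m i + 1))) (Expo n d) (MvPolynomial (Fin k × Fin n) ℂ) :=
  fun is β => if ∑ j, (is.2 j : ℕ) < m is.1 then
    ∏ j, C (((β.1 j).choose (is.2 j : ℕ) : ℕ) : ℂ) * X (is.1, j) ^ (β.1 j - (is.2 j : ℕ)) else 0

variable {n d m}

theorem mem_forms_iff_condMatrix (p : Fin k → Fin n → ℂ) (F : MvPolynomial (Fin n) ℂ)
    (hF : F.IsHomogeneous d) :
    F ∈ forms n d m p ↔
      ((condMatrix n d m).map (eval (fun ij => p ij.1 ij.2))).mulVec (fun β => coeff β.1 F) = 0 := by
  classical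
  have hsupp : F.support ⊆ Finset.finsuppAntidiag Finset.univ d := by
    intro β hβ
    rw [mem_expo]
    exact (isHomogeneous_iff F).mp hF β hβ
  have key : ∀ (i : Fin k) (s : Fin n →₀ ℕ),
      coeff s (aeval (fun j => (X j + C (p i j) : MvPolynomial (Fin n) ℂ)) F) =
        ∑ β : Expo n d, (∏ j, ((β.1 j).choose (s j) : ℂ) * p i j ^ (β.1 j - s j)) *
          coeff β.1 F := by
    intro i s
    rw [coeff_taylor' (p i) s F _ hsupp, ← Finset.sum_coe_sort]
    refine Finset.sum_congr rfl fun β _ => ?_
    ring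
  rw [mem_forms]
  constructor
  · rintro ⟨-, h⟩
    funext is
    rw [Matrix.mulVec, dotProduct]
    simp only [Matrix.map_apply, condMatrix, Pi.zero_apply]
    split_ifs with hlt
    · have h1 := h is.1 (Finsupp.equivFunOnFinite.symm (fun j => (is.2 j : ℕ))) (by
        rw [Finsupp.degree_eq_sum]; simpa using hlt)
      rw [key] at h1
      simpa using h1
    · simp
  · intro h
    refine ⟨hF, fun i s hs => ?_⟩
    rw [key]
    have hle : m i ≤ ∑ i, m i := Finset.single_le_sum (fun _ _ => Nat.zero_le _) (Finset.mem_univ i)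
    have hsj : ∀ j, s j < ∑ i, m i + 1 := by
      intro j
      have := Finsupp.le_degree j s
      omega
    have h1 := congrFun h (i, fun j => ⟨s j, hsj j⟩)
    rw [Matrix.mulVec, dotProduct] at h1
    simp only [Matrix.map_apply, condMatrix, Pi.zero_apply] at h1
    rw [Finsupp.degree_eq_sum] at hs
    simp only [hs, if_true] at h1
    simpa using h1

/-- The space of forms is the kernel of the matrix of conditions. -/
noncomputable def formsEquivKer (p : Fin k → Fin n → ℂ) :
    forms n d m p ≃ₗ[ℂ]
      LinearMap.ker ((condMatrix n d m).map (eval (fun ij => p ij.1 ij.2))).mulVecLin := by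
  classical
  refine LinearEquiv.ofBijective
    (LinearMap.codRestrict _
      ({ toFun := fun F => fun β : Expo n d => coeff β.1 F.1
         map_add' := fun F G => by funext β; simp
         map_smul' := fun c F => by funext β; simp } : forms n d m p →ₗ[ℂ] (Expo n d → ℂ)) ?_) ⟨?_, ?_⟩
  · rintro ⟨F, hF⟩
    rw [LinearMap.mem_ker]
    exact (mem_forms_iff_condMatrix p F hF.1).mp hF
  · rw [← LinearMap.ker_eq_bot, LinearMap.ker_eq_bot']
    rintro ⟨F, hF⟩ h
    apply Subtype.ext
    ext β
    have h1 := congrArg Subtype.val h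
    by_cases hβ : β.degree = d
    · exact congrFun h1 ⟨β, (mem_expo n d β).mpr hβ⟩
    · by_contra hne
      exact hβ ((isHomogeneous_iff F).mp hF.1 β (mem_support_iff.mpr hne))
  · rintro ⟨c, hc⟩
    let F : MvPolynomial (Fin n) ℂ := ∑ β : Expo n d, monomial β.1 (c β)
    have hcoeff : ∀ β : Expo n d, coeff β.1 F = c β := by
      intro β
      simp only [F, coeff_sum, coeff_monomial]
      rw [Finset.sum_eq_single β]
      · simp
      · intro γ _ hγ
        rw [if_neg]
        intro h
        exact hγ (Subtype.ext h)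
      · simp
    have hhom : F.IsHomogeneous d := by
      apply IsHomogeneous.sum
      intro β _
      exact isHomogeneous_monomial _ ((mem_expo n d β.1).mp β.2)
    have hmem : F ∈ forms n d m p := by
      rw [mem_forms_iff_condMatrix p F hhom]
      rw [LinearMap.mem_ker] at hc
      have : (fun β : Expo n d => coeff β.1 F) = c := funext hcoeff
      rw [this]
      exact hc
    refine ⟨⟨F, hmem⟩, ?_⟩
    apply Subtype.ext
    funext β
    exact hcoeff β

/-- Semicontinuity: the dimension of the linear system for general points is at most its dimension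
for any special choice of the points. -/
theorem forms_semicontinuous (p0 : Fin k → Fin n → ℂ) (N : ℕ)
    (h : Module.finrank ℂ (forms n d m p0) ≤ N) :
    ForGeneral n k (fun p => Module.finrank ℂ (forms n d m p) ≤ N) := by
  classical
  rw [(formsEquivKer p0).finrank_eq] at h
  obtain ⟨D, hD, hD'⟩ := generic_finrank_ker (condMatrix n d m) (fun ij => p0 ij.1 ij.2) N h
  refine ⟨D, fun h0 => hD (by rw [h0, map_zero]), fun p hp => ?_⟩
  show Module.finrank ℂ (forms n d m p) ≤ N
  rw [(formsEquivKer p).finrank_eq]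
  exact hD' _ hp

end forms

end Pool.Agent.H938R2
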