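import Mathlib
import Pool.Agent.H15.G.R_seed8.H938R2.Fat
import Pool.Agent.H15.G.R_seed8.H938R2.Coord
import Pool.Agent.H15.G.R_seed8.H938R2.Semi
import Pool.Agent.H15.G.R_seed8.H938R2.Count

set_option autoImplicit false

/-!
General lemmas.
-/

namespace Pool.Agent.H938R2

open MvPolynomial

theorem exists_eval_ne_zero {τ : Type*} {D : MvPolynomial τ ℂ} (hD : D ≠ 0) :
    ∃ x : τ → ℂ, eval x D ≠ 0 := by
  by_contra hcon
  push Not at hcon
  exact hD (MvPolynomial.funext fun x => by rw [hcon x, map_zero])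

theorem ForGeneral.mono {n k : ℕ} {P Q : (Fin k → Fin n → ℂ) → Prop} (h : ForGeneral n k P)
    (hPQ : ∀ p, P p → Q p) : ForGeneral n k Q := by
  obtain ⟨D, hD, h⟩ := h
  exact ⟨D, hD, fun p hp => hPQ p (h p hp)⟩

theorem ForGeneral.and {n k : ℕ} {P Q : (Fin k → Fin n → ℂ) → Prop} (h : ForGeneral n k P)
    (h' : ForGeneral n k Q) : ForGeneral n k (fun p => P p ∧ Q p) := by
  obtain ⟨D, hD, h⟩ := h
  obtain ⟨D', hD', h'⟩ := h'
  refine ⟨D * D', mul_ne_zero hD hD', fun p hp => ?_⟩
  rw [map_mul] at hp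
  exact ⟨h p (left_ne_zero_of_mul hp), h' p (right_ne_zero_of_mul hp)⟩

theorem ForGeneral.exists {n k : ℕ} {P : (Fin k → Fin n → ℂ) → Prop} (h : ForGeneral n k P) :
    ∃ p, P p := by
  obtain ⟨D, hD, h⟩ := h
  obtain ⟨x, hx⟩ := exists_eval_ne_zero hD
  exact ⟨fun i j => x (i, j), h _ hx⟩

theorem forGeneral_of_forall {n k : ℕ} {P : (Fin k → Fin n → ℂ) → Prop} (h : ∀ p, P p) :
    ForGeneral n k P := ⟨1, one_ne_zero, fun p _ => h p⟩

/-- General points are given by nonzero vectors. -/
theorem forGeneral_ne_zero {n k : ℕ} (hn : 0 < n) :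
    ForGeneral n k (fun p => ∀ i, p i ≠ 0) := by
  refine ⟨∏ i, X (i, ⟨0, hn⟩), Finset.prod_ne_zero_iff.mpr fun i _ => X_ne_zero _,
    fun p hp i h0 => ?_⟩
  apply hp
  rw [map_prod]
  apply Finset.prod_eq_zero (Finset.mem_univ i)
  rw [eval_X]
  exact congrFun h0 ⟨0, hn⟩

/-- Two given general points are distinct. -/
theorem forGeneral_pair {n k : ℕ} (hn : 2 ≤ n) (a b : Fin k) (hab : a ≠ b) :
    ForGeneral n k (fun p => LinearIndependent ℂ ![p a, p b]) := by
  let i0 : Fin n := ⟨0, by omega⟩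
  let i1 : Fin n := ⟨1, by omega⟩
  have hi : i0 ≠ i1 := by simp [i0, i1]
  refine ⟨X (a, i0) * X (b, i1) - X (a, i1) * X (b, i0), ?_, fun p hp => ?_⟩
  · intro h0
    have := congrArg (eval (fun ij : Fin k × Fin n =>
      if ij = (a, i0) ∨ ij = (b, i1) then (1 : ℂ) else 0)) h0
    simp [hab, hab.symm, hi, hi.symm] at this
  · simp only [map_sub, map_mul, eval_X] at hp
    rw [LinearIndependent.pair_iff]
    intro s t hst
    have h0 := congrFun hst i0
    have h1 := congrFun hst i1
    simp only [Pi.add_apply, Pi.smul_apply, smul_eq_mul, Pi.zero_apply] at h0 h1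
    constructor
    · have : s * (p a i0 * p b i1 - p a i1 * p b i0) = 0 := by
        linear_combination p b i1 * h0 - p b i0 * h1
      exact (mul_eq_zero.mp this).resolve_right hp
    · have : t * (p a i0 * p b i1 - p a i1 * p b i0) = 0 := by
        linear_combination p a i0 * h1 - p a i1 * h0
      exact (mul_eq_zero.mp this).resolve_right hp

theorem VanishesToOrder.mul {n a b : ℕ} {p : Fin n → ℂ} {F G : MvPolynomial (Fin n) ℂ}
    (hF : VanishesToOrder a p F) (hG : VanishesToOrder b p G) :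
    VanishesToOrder (a + b) p (F * G) := by
  classical
  intro s hs
  rw [map_mul, coeff_mul]
  refine Finset.sum_eq_zero fun uv huv => ?_
  rw [Finset.HasAntidiagonal.mem_antidiagonal] at huv
  have hdeg : uv.1.degree + uv.2.degree = s.degree := by
    rw [← huv, map_add]
  rcases lt_or_ge uv.1.degree a with h | h
  · rw [hF _ h, zero_mul]
  · rw [hG _ (by omega), mul_zero]

theorem VanishesToOrder.mono {n a b : ℕ} (hab : a ≤ b) {p : Fin n → ℂ}
    {F : MvPolynomial (Fin n) ℂ} (hF : VanishesToOrder b p F) : VanishesToOrder a p F :=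
  fun s hs => hF s (by omega)

/-- A form of degree less than `m` cannot have a point of multiplicity `m`. -/
theorem eq_zero_of_vanishesToOrder {r d m : ℕ} {q : Fin (r + 1) → ℂ} (hq : q ≠ 0)
    {F : MvPolynomial (Fin (r + 1)) ℂ} (hF : F.IsHomogeneous d) (h : VanishesToOrder m q F)
    (hdm : d < m) : F = 0 := by
  have hLI : LinearIndependent ℂ (fun _ : Fin 1 => q) := linearIndependent_unique_iff.mpr hq
  obtain ⟨A, B, hAB, hBA, hA⟩ := exists_coordinates (by omega : 1 ≤ r + 1) _ hLI
  have hA0 : A.mulVec (Pi.single 0 1) = q := hA 0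
  have hF' : (subst A F).IsHomogeneous d := subst_isHomogeneous A hF
  have h' : VanishesToOrder m (Pi.single 0 1) (subst A F) := by
    apply vanishesToOrder_subst; rw [hA0]; exact h
  rw [vanishesToOrder_coord 0 hF'] at h'
  have h0 : subst A F = 0 := by
    by_contra hne
    obtain ⟨β, hβ⟩ := Finset.nonempty_iff_ne_empty.mpr (mt support_eq_empty.mp hne)
    have := h' β hβ
    omega
  have h1 : subst B (subst A F) = F := by rw [subst_subst, hAB, subst_one]
  rw [← h1, h0, map_zero]

/-- The linear conditions at a point, in a form which is convenient at points with nonzero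
coordinates. -/
theorem torus_condition {n m : ℕ} {q : Fin n → ℂ} {F : MvPolynomial (Fin n) ℂ}
    (hF : VanishesToOrder m q F) (T : Finset (Fin n →₀ ℕ)) (hT : F.support ⊆ T)
    (s : Fin n →₀ ℕ) (hs : s.degree < m) :
    ∑ β ∈ T, coeff β F * ((∏ j, ((β j).choose (s j) : ℂ)) * ∏ j, q j ^ β j) = 0 := by
  have h := hF s hs
  rw [coeff_taylor' q s F T hT] at h
  have h2 := congrArg (fun x => x * ∏ j, q j ^ s j) h
  simp only [zero_mul, Finset.sum_mul] at h2
  rw [← h2]
  refine Finset.sum_congr rfl fun β _ => ?_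
  rw [mul_assoc]
  congr 1
  rw [← Finset.prod_mul_distrib, ← Finset.prod_mul_distrib]
  refine Finset.prod_congr rfl fun j _ => ?_
  rcases le_or_gt (s j) (β j) with hj | hj
  · rw [mul_assoc, ← pow_add, Nat.sub_add_cancel hj]
  · rw [Nat.choose_eq_zero_of_lt hj]; simp

end Pool.Agent.H938R2
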